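import Pool.Agent.Helper75x.NRB.Model
import Pool.Agent.Helper75x.NR.StmB

/-!
Task B of project S04319: the matrix model of a totally minimal nilsystem.
-/

set_option autoImplicit false

namespace Pool.Agent.Helper75x.NRB

open Topology Filter Pool.Agent.TH91.LG Pool.Agent.TH91.LG.J1261 Pool.Agent.TH91.NB
open scoped ContDiff Manifold

section matrices

variable {E : Type*} [NormedAddCommGroup E] [NormedSpace ℝ E]
  {B : E →ₗ[ℝ] E →ₗ[ℝ] E} {D : Module.End ℝ E} {N : ℕ} (R : NilRepD B D N)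

/-- the converse of `exp_mul_form` -/
theorem exp_form_mul (X : E) (t : ℝ) : ∃ X' : E,
    IsNilpotent.exp (R.ρ X + t • R.M) =
      IsNilpotent.exp (R.ρ X') * IsNilpotent.exp (t • R.M) := by
  have hx : R.ρ X + t • R.M ∈ TT R := ⟨X, t, rfl⟩
  have hy : -(t • R.M) ∈ TT R := (TT R).neg_mem ⟨0, t, by simp⟩
  obtain ⟨j, ⟨a, rfl⟩, h⟩ := (TT_lat R).exp_mul_add (TT_idl R) hx hy (by
    obtain ⟨a, ha⟩ := TT_br R hx hy
    rw [ha]
    exact ⟨a, rfl⟩)
  refine ⟨X + a, ?_⟩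
  have h1 : R.ρ X + t • R.M + -(t • R.M) + R.ρ a = R.ρ (X + a) := by
    rw [map_add]
    abel
  rw [h1] at h
  rw [← h, mul_assoc, IsNilpotent.exp_neg_mul_exp_self
    ((J887.matFiltR N).nilp (smul_mem (M_mem R) t)), mul_one]

theorem mem_F1 (X : E) (t : ℝ) : R.ρ X + t • R.M ∈ (J887.matFiltR N).F 1 :=
  Submodule.add_mem _ (rho_mem R X) (smul_mem (M_mem R) t)

theorem isClosed_Z [FiniteDimensional ℝ E] :
    IsClosed {y : Matrix (Fin N) (Fin N) ℝ | ∃ (X : E) (k : ℤ), y = R.ρ X + (k : ℝ) • R.M} := by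
  have hMn : R.M ∉ LinearMap.range R.ρ := by
    rintro ⟨x, hx⟩
    have := R.indep x 1 (by rw [one_smul]; exact hx)
    exact one_ne_zero this
  obtain ⟨χ, hχM, hχ⟩ := Submodule.exists_le_ker_of_notMem hMn
  have hχ0 : ∀ x, χ (R.ρ x) = 0 := fun x => hχ ⟨x, rfl⟩
  have hχc : Continuous χ := LinearMap.continuous_of_finiteDimensional χ
  have h1 : {y : Matrix (Fin N) (Fin N) ℝ | ∃ (X : E) (k : ℤ), y = R.ρ X + (k : ℝ) • R.M} =
      ((LinearMap.range R.ρ ⊔ Submodule.span ℝ {R.M} : Submodule ℝ (Matrix (Fin N) (Fin N) ℝ)) :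
        Set (Matrix (Fin N) (Fin N) ℝ)) ∩
      {y | χ y / χ R.M ∈ Set.range (Int.cast : ℤ → ℝ)} := by
    ext y
    constructor
    · rintro ⟨X, k, rfl⟩
      refine ⟨Submodule.add_mem_sup ⟨X, rfl⟩
        (Submodule.smul_mem _ _ (Submodule.mem_span_singleton_self _)), ?_⟩
      refine ⟨k, ?_⟩
      rw [map_add, hχ0, zero_add, map_smul, smul_eq_mul, mul_div_cancel_right₀ _ hχM]
    · rintro ⟨hy, k, hk⟩
      obtain ⟨_, ⟨X, rfl⟩, _, hz, rfl⟩ := Submodule.mem_sup.1 hy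
      obtain ⟨s, rfl⟩ := Submodule.mem_span_singleton.1 hz
      rw [map_add, hχ0, zero_add, map_smul, smul_eq_mul, mul_div_cancel_right₀ _ hχM] at hk
      exact ⟨X, k, by rw [hk]⟩
  rw [h1]
  refine IsClosed.inter (Submodule.closed_of_finiteDimensional _) ?_
  exact Int.isClosedEmbedding_coe_real.isClosed_range.preimage (hχc.div_const _)

theorem isClosed_H [FiniteDimensional ℝ E] (H : Subgroup (Matrix (Fin N) (Fin N) ℝ)ˣ)
    (hH : ∀ u, u ∈ H ↔ ∃ (X : E) (k : ℤ), u = ue (R.ρ X) (rho_mem R X) * (ue R.M (M_mem R)) ^ k) :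
    IsClosed (H : Set (Matrix (Fin N) (Fin N) ℝ)ˣ) := by
  have h1 : (H : Set (Matrix (Fin N) (Fin N) ℝ)ˣ) =
      {u : (Matrix (Fin N) (Fin N) ℝ)ˣ | (u : Matrix (Fin N) (Fin N) ℝ) - 1 ∈ J887.FR N 1} ∩
      {u : (Matrix (Fin N) (Fin N) ℝ)ˣ | J887.Lg N N (u : Matrix (Fin N) (Fin N) ℝ) ∈
        {y : Matrix (Fin N) (Fin N) ℝ | ∃ (X : E) (k : ℤ), y = R.ρ X + (k : ℝ) • R.M}} := by
    ext u
    constructor
    · intro hu
      obtain ⟨X, k, rfl⟩ := (hH u).1 hu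
      obtain ⟨X', hX'⟩ := exp_mul_form R X (k : ℝ)
      have h2 : ((ue (R.ρ X) (rho_mem R X) * (ue R.M (M_mem R)) ^ k :
          (Matrix (Fin N) (Fin N) ℝ)ˣ) : Matrix (Fin N) (Fin N) ℝ) =
          IsNilpotent.exp (R.ρ X' + (k : ℝ) • R.M) := by
        rw [Units.val_mul, ue_val, ue_zpow, hX']
      refine ⟨?_, ?_⟩
      · change _ - 1 ∈ J887.FR N 1
        rw [h2]
        exact (J887.matFiltR N).exp_sub_one_mem (mem_F1 R X' k)
      · refine ⟨X', k, ?_⟩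
        rw [h2, J887.Lg_exp (mem_F1 R X' k)]
    · rintro ⟨h2, X, k, h3⟩
      obtain ⟨h4, h5⟩ := J887.Lg_spec (w := (u : Matrix (Fin N) (Fin N) ℝ)) h2 N
      have h6 := sub_eq_zero.1 ((J887.matFiltR N).eq_zero_of_le (by omega) h5)
      rw [h3] at h6
      obtain ⟨X', hX'⟩ := exp_form_mul R X (k : ℝ)
      refine (hH u).2 ⟨X', k, Units.ext ?_⟩
      rw [h6, hX', Units.val_mul, ue_val, ue_zpow]
  rw [h1]
  refine IsClosed.inter ?_ ?_
  · exact (Submodule.closed_of_finiteDimensional (J887.FR N 1)).preimage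
      (Units.continuous_val.sub continuous_const)
  · exact (isClosed_Z R).preimage ((J887.Lg_continuous N).comp Units.continuous_val)

theorem isOpen_H0 [FiniteDimensional ℝ E] (H : Subgroup (Matrix (Fin N) (Fin N) ℝ)ˣ)
    (hH : ∀ u, u ∈ H ↔ ∃ (X : E) (k : ℤ), u = ue (R.ρ X) (rho_mem R X) * (ue R.M (M_mem R)) ^ k) :
    IsOpen {k : H | ∃ X : E, (k : (Matrix (Fin N) (Fin N) ℝ)ˣ) = ue (R.ρ X) (rho_mem R X)} := by
  have hMn : R.M ∉ LinearMap.range R.ρ := by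
    rintro ⟨x, hx⟩
    have := R.indep x 1 (by rw [one_smul]; exact hx)
    exact one_ne_zero this
  obtain ⟨χ, hχM, hχ⟩ := Submodule.exists_le_ker_of_notMem hMn
  have hχ0 : ∀ x, χ (R.ρ x) = 0 := fun x => hχ ⟨x, rfl⟩
  have hχc : Continuous χ := LinearMap.continuous_of_finiteDimensional χ
  have h1 : {k : H | ∃ X : E, (k : (Matrix (Fin N) (Fin N) ℝ)ˣ) = ue (R.ρ X) (rho_mem R X)} =
      {k : H | |χ (J887.Lg N N ((k : (Matrix (Fin N) (Fin N) ℝ)ˣ) : Matrix (Fin N) (Fin N) ℝ))| <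
        |χ R.M|} := by
    ext u
    constructor
    · rintro ⟨X, hX⟩
      change |χ (J887.Lg N N ((u : (Matrix (Fin N) (Fin N) ℝ)ˣ) : Matrix (Fin N) (Fin N) ℝ))| <
        |χ R.M|
      rw [hX, ue_val, J887.Lg_exp (rho_mem R X), hχ0, abs_zero]
      exact abs_pos.2 hχM
    · intro hu
      change |χ (J887.Lg N N ((u : (Matrix (Fin N) (Fin N) ℝ)ˣ) : Matrix (Fin N) (Fin N) ℝ))| <
        |χ R.M| at hu
      obtain ⟨X, k, hk⟩ := (hH u).1 u.2
      obtain ⟨X', hX'⟩ := exp_mul_form R X (k : ℝ)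
      rw [hk, Units.val_mul, ue_val, ue_zpow, hX', J887.Lg_exp (mem_F1 R X' k), map_add, hχ0,
        zero_add, map_smul, smul_eq_mul, abs_mul] at hu
      have h6 : |(k : ℝ)| < 1 := by
        by_contra hcon
        push Not at hcon
        have := mul_le_mul_of_nonneg_right hcon (abs_nonneg (χ R.M))
        linarith
      have h7 : k = 0 := by
        have : |k| < 1 := by exact_mod_cast h6
        exact Int.abs_lt_one_iff.1 this
      exact ⟨X, by rw [hk, h7, zpow_zero, mul_one]⟩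
  rw [h1]
  exact isOpen_lt (hχc.comp ((J887.Lg_continuous N).comp
    (Units.continuous_val.comp continuous_subtype_val))).abs continuous_const

end matrices

open Pool.Agent.TH91.RF in
theorem taskB : Pool.Agent.Helper75x.NR.TaskB := by
  classical
  intro E _ _ _ G _ _ _ _ _ Γ hΓd hΓc g hmin U hU hUne
  have htop : IsTopologicalGroup G := topologicalGroup_of_lieGroup 𝓘(ℝ, E) ∞
  have hT1 : T1Space G := ChartedSpace.t1Space E G
  have hΓcl : IsClosed (Γ : Set G) := Subgroup.isClosed_of_discrete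
  obtain ⟨Bk, D, N, R, H, φ, hcl, hH, htri, hφc, hφo, hφm, hconj⟩ := lie_model2 (E := E) g
  set m : (Matrix (Fin N) (Fin N) ℝ)ˣ := ue R.M (M_mem R) with hm
  set e : E → (Matrix (Fin N) (Fin N) ℝ)ˣ := fun X => ue (R.ρ X) (rho_mem R X) with he
  have he_val : ∀ X, (e X : Matrix (Fin N) (Fin N) ℝ) = IsNilpotent.exp (R.ρ X) := fun X => rfl
  have he_inv : ∀ X, (e X)⁻¹ = e (-X) := by
    intro X
    apply Units.ext
    rw [he_val, map_neg]
    rfl
  have he0 : e 0 = 1 := by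
    apply Units.ext
    rw [he_val, map_zero, IsNilpotent.exp_zero, Units.val_one]
  have he_mul : ∀ X Y, ∃ Z, e X * e Y = e Z := by
    intro X Y
    obtain ⟨Z, hZ⟩ := hcl X Y
    refine ⟨Z, Units.ext ?_⟩
    rw [Units.val_mul, he_val, he_val, he_val, hZ]
  have heH : ∀ X, e X ∈ H := fun X => (hH _).2 ⟨X, 0, by rw [zpow_zero, mul_one]⟩
  have hmH : m ∈ H := (hH _).2 ⟨0, 1, by
    change m = e 0 * m ^ (1 : ℤ)
    rw [he0, zpow_one, one_mul]⟩
  have hφm' : φ ⟨m, hmH⟩ = g := hφm hmH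
  have hHcl : IsClosed (H : Set (Matrix (Fin N) (Fin N) ℝ)ˣ) := isClosed_H R H hH
  have hemb : IsClosedEmbedding (Subtype.val : H → (Matrix (Fin N) (Fin N) ℝ)ˣ) :=
    hHcl.isClosedEmbedding_subtypeVal
  -- the orbit maps
  have hact : ∀ y : G ⧸ Γ, Continuous (fun k : H => φ k • y) ∧
      IsOpenMap (fun k : H => φ k • y) := by
    intro y
    obtain ⟨l, rfl⟩ := QuotientGroup.mk_surjective y
    have h1 : (fun k : H => φ k • (QuotientGroup.mk l : G ⧸ Γ)) =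
        (QuotientGroup.mk : G → G ⧸ Γ) ∘ (fun m => m * l) ∘ φ := by
      funext k; rfl
    rw [h1]
    refine ⟨?_, ?_⟩
    · exact QuotientGroup.continuous_mk.comp ((continuous_mul_const l).comp hφc)
    · exact QuotientGroup.isOpenMap_coe.comp ((isOpenMap_mul_right l).comp hφo)
  set x0 : G ⧸ Γ := ((1 : G) : G ⧸ Γ) with hx0
  have hstab : ∀ y : G, y • x0 = x0 ↔ y ∈ Γ := by
    intro y
    have h1 : y • x0 = ((y * 1 : G) : G ⧸ Γ) := rfl
    rw [h1, hx0, mul_one]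
    constructor
    · intro h
      have h2 := QuotientGroup.eq.1 h
      rw [mul_one] at h2
      exact Γ.inv_mem_iff.1 h2
    · intro h
      apply QuotientGroup.eq.2
      rw [mul_one]
      exact Γ.inv_mem h
  -- the stabiliser
  set K : Subgroup H := Γ.comap φ with hK
  set Λ : Subgroup (Matrix (Fin N) (Fin N) ℝ)ˣ := K.map H.subtype with hΛ
  have hΛmem : ∀ k : H, φ k • x0 = x0 → (k : (Matrix (Fin N) (Fin N) ℝ)ˣ) ∈ Λ := by
    intro k hk
    exact ⟨k, (hstab _).1 hk, rfl⟩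
  have hΛle : Λ ≤ H := by
    rintro _ ⟨k, -, rfl⟩
    exact k.2
  have hΛcl : IsClosed (Λ : Set (Matrix (Fin N) (Fin N) ℝ)ˣ) := by
    have h1 : (Λ : Set (Matrix (Fin N) (Fin N) ℝ)ˣ) = Subtype.val '' (φ ⁻¹' (Γ : Set G)) := rfl
    rw [h1]
    exact hemb.isClosedMap _ (hΓcl.preimage hφc)
  -- powers
  have hmz : ∀ n : ℤ, φ ((⟨m, hmH⟩ : H) ^ n) = g ^ n := fun n => by rw [map_zpow, hφm']
  have hmzval : ∀ n : ℤ, (((⟨m, hmH⟩ : H) ^ n : H) : (Matrix (Fin N) (Fin N) ℝ)ˣ) = m ^ n :=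
    fun n => rfl
  have hdense : ∀ y : G ⧸ Γ, ∀ W : Set (G ⧸ Γ), IsOpen W → W.Nonempty → ∀ q : ℕ, 0 < q →
      ∃ n : ℤ, (g ^ q) ^ n • y ∈ W := by
    intro y W hW hWne q hq
    obtain ⟨w, hw, n, hn⟩ := (hmin q hq y).inter_open_nonempty W hW hWne
    refine ⟨n, ?_⟩
    have h1 : (g ^ q) ^ n • y = w := hn
    rw [h1]
    exact hw
  set Bad : Set (Matrix (Fin N) (Fin N) ℝ)ˣ := Subtype.val '' {k : H | φ k • x0 ∉ U} with hBad
  have hBadmem : ∀ (u : (Matrix (Fin N) (Fin N) ℝ)ˣ) (hu : u ∈ H),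
      u ∈ Bad ↔ φ ⟨u, hu⟩ • x0 ∉ U := by
    intro u hu
    constructor
    · rintro ⟨k, hk, rfl⟩
      exact hk
    · intro h
      exact ⟨⟨u, hu⟩, h, rfl⟩
  obtain ⟨n0, hn0⟩ := hdense x0 U hU hUne 1 one_pos
  rw [pow_one] at hn0
  refine ⟨N, LinearMap.range R.ρ, R.M, H, Λ, Bad, m, m ^ n0, ?_, M_mem R, ?_, ?_, ?_, rfl, ?_,
    hΛle, hΛcl, ?_, ?_, ?_, ?_, ?_, H.zpow_mem hmH n0, ?_, ?_⟩
  · rintro _ ⟨X, rfl⟩
    exact rho_mem R X
  · rintro _ ⟨X, rfl⟩ _ ⟨Y, rfl⟩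
    exact ⟨Bk X Y, R.br X Y⟩
  · rintro _ ⟨X, rfl⟩
    exact ⟨D X, R.der X⟩
  · rintro _ ⟨X, rfl⟩ s hs
    exact R.indep X s hs
  · intro u
    rw [hH]
    constructor
    · rintro ⟨X, k, rfl⟩
      refine ⟨R.ρ X, ⟨X, rfl⟩, k, ?_⟩
      change ((e X * m ^ k : (Matrix (Fin N) (Fin N) ℝ)ˣ) : Matrix (Fin N) (Fin N) ℝ) = _
      rw [Units.val_mul, he_val, hm, ue_zpow]
    · rintro ⟨_, ⟨X, rfl⟩, k, hk⟩
      refine ⟨X, k, Units.ext ?_⟩
      change _ = ((e X * m ^ k : (Matrix (Fin N) (Fin N) ℝ)ˣ) : Matrix (Fin N) (Fin N) ℝ)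
      rw [hk, Units.val_mul, he_val, hm, ue_zpow]
  · -- boundedness
    have hopen : ∀ y : G ⧸ Γ, IsOpen (Set.range (fun k : H => φ k • y)) :=
      fun y => (hact y).2.isOpen_range
    have hclosed : IsClosed (Set.range (fun k : H => φ k • x0)) := by
      rw [← isOpen_compl_iff]
      have h1 : (Set.range (fun k : H => φ k • x0))ᶜ =
          ⋃ y ∈ (Set.range (fun k : H => φ k • x0))ᶜ, Set.range (fun k : H => φ k • y) := by
        ext z
        constructor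
        · intro hz
          exact Set.mem_biUnion hz ⟨1, by simp⟩
        · intro hz
          obtain ⟨y, hy, k, rfl⟩ := Set.mem_iUnion₂.1 hz
          rintro ⟨k', hk'⟩
          apply hy
          refine ⟨k⁻¹ * k', ?_⟩
          change φ (k⁻¹ * k') • x0 = y
          rw [map_mul, mul_smul, map_inv, inv_smul_eq_iff]
          exact hk'
      rw [h1]
      exact isOpen_biUnion (fun y _ => hopen y)
    have hcompact : IsCompact (Set.range (fun k : H => φ k • x0)) := hclosed.isCompact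
    let ev : H → Matrix (Fin N) (Fin N) ℝ :=
      fun k => ((k : (Matrix (Fin N) (Fin N) ℝ)ˣ) : Matrix (Fin N) (Fin N) ℝ)
    have hev : Continuous ev := Units.continuous_val.comp continuous_subtype_val
    let BB : ℕ → Set H := fun n => {k | ∀ i j, |ev k i j| < n}
    have hBopen : ∀ n, IsOpen (BB n) := by
      intro n
      have h1 : BB n = ⋂ i, ⋂ j, {k | |ev k i j| < n} := by
        ext k; simp [BB]
      rw [h1]
      refine isOpen_iInter_of_finite (fun i => isOpen_iInter_of_finite (fun j => ?_))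
      have h2 : Continuous (fun k => |ev k i j|) := (hev.matrix_elem i j).abs
      exact isOpen_lt h2 continuous_const
    have hBmono : Monotone BB := by
      intro n m hnm k hk i j
      exact (hk i j).trans_le (by exact_mod_cast hnm)
    have hBcover : ∀ k : H, ∃ n, k ∈ BB n := by
      intro k
      obtain ⟨n, hn⟩ := exists_nat_gt (∑ i, ∑ j, |ev k i j|)
      refine ⟨n, fun i j => lt_of_le_of_lt ?_ hn⟩
      have h1 : |ev k i j| ≤ ∑ j, |ev k i j| :=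
        Finset.single_le_sum (f := fun j => |ev k i j|) (fun _ _ => abs_nonneg _)
          (Finset.mem_univ j)
      have h2 : ∑ j, |ev k i j| ≤ ∑ i, ∑ j, |ev k i j| :=
        Finset.single_le_sum (f := fun i => ∑ j, |ev k i j|)
          (fun _ _ => Finset.sum_nonneg (fun _ _ => abs_nonneg _)) (Finset.mem_univ i)
      exact h1.trans h2
    obtain ⟨n, hn⟩ := hcompact.elim_directed_cover
      (fun n => (fun k : H => φ k • x0) '' BB n)
      (fun n => (hact x0).2 _ (hBopen n))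
      (by
        rintro _ ⟨k, rfl⟩
        obtain ⟨n, hn⟩ := hBcover k
        exact Set.mem_iUnion.2 ⟨n, k, hn, rfl⟩)
      (by
        intro a b
        exact ⟨max a b, Set.image_mono (hBmono (le_max_left _ _)),
          Set.image_mono (hBmono (le_max_right _ _))⟩)
    refine ⟨n, fun u hu => ?_⟩
    obtain ⟨b, hb, hb2⟩ := hn ⟨⟨u, hu⟩, rfl⟩
    have hb2' : φ b • x0 = φ ⟨u, hu⟩ • x0 := hb2
    refine ⟨((⟨u, hu⟩⁻¹ * b : H) : (Matrix (Fin N) (Fin N) ℝ)ˣ), ?_, ?_⟩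
    · apply hΛmem
      rw [map_mul, mul_smul, hb2', map_inv, inv_smul_smul]
    · intro i j
      have h1 : u * ((⟨u, hu⟩⁻¹ * b : H) : (Matrix (Fin N) (Fin N) ℝ)ˣ) = b := by
        rw [Subgroup.coe_mul, Subgroup.coe_inv, mul_inv_cancel_left]
      rw [h1]
      exact (hb i j).le
  · -- density
    intro u hu
    rw [mem_closure_iff]
    intro W hW huW
    have h1 : IsOpen ((fun k : H => φ k • x0) '' (Subtype.val ⁻¹' W)) :=
      (hact x0).2 _ (hW.preimage continuous_subtype_val)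
    obtain ⟨n, hn⟩ := hdense x0 _ h1 ⟨_, ⟨u, hu⟩, huW, rfl⟩ 1 one_pos
    obtain ⟨w, hw, hwn⟩ := hn
    rw [pow_one] at hwn
    refine ⟨w, hw, n, m ^ (-n) * w, ?_, ?_⟩
    · apply hΛmem ((⟨m, hmH⟩ : H) ^ (-n) * w)
      have h2 : φ w • x0 = g ^ n • x0 := hwn
      rw [map_mul, mul_smul, h2, hmz, smul_smul, ← zpow_add, neg_add_cancel, zpow_zero, one_smul]
    · rw [← mul_assoc, ← zpow_add, add_neg_cancel, zpow_zero, one_mul]
  · -- the element of the coset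
    have hS := isOpen_H0 R H hH
    set S : Set H := {k : H | ∃ X : E, (k : (Matrix (Fin N) (Fin N) ℝ)ˣ) =
      ue (R.ρ X) (rho_mem R X)} with hSdef
    have hSopen : ∀ y : G ⧸ Γ, IsOpen ((fun k : H => φ k • y) '' S) := fun y => (hact y).2 _ hS
    have hS1 : (1 : H) ∈ S := ⟨0, by
      change (1 : (Matrix (Fin N) (Fin N) ℝ)ˣ) = e 0
      rw [he0]⟩
    have hSne : ∀ y : G ⧸ Γ, ((fun k : H => φ k • y) '' S).Nonempty := fun y => ⟨_, 1, hS1, rfl⟩
    have hSmul : ∀ k ∈ S, ∀ l ∈ S, k * l ∈ S := by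
      rintro k ⟨X, hX⟩ l ⟨Y, hY⟩
      obtain ⟨Z, hZ⟩ := he_mul X Y
      refine ⟨Z, ?_⟩
      rw [Subgroup.coe_mul, hX, hY]
      exact hZ
    have hSinv : ∀ k ∈ S, k⁻¹ ∈ S := by
      rintro k ⟨X, hX⟩
      refine ⟨-X, ?_⟩
      rw [Subgroup.coe_inv, hX]
      exact he_inv X
    have hSconj : ∀ n : ℤ, ∀ k ∈ S, (⟨m, hmH⟩ : H) ^ n * k * ((⟨m, hmH⟩ : H) ^ n)⁻¹ ∈ S := by
      rintro n k ⟨X, hX⟩
      obtain ⟨Y, hY⟩ := hconj n X
      refine ⟨Y, ?_⟩
      rw [Subgroup.coe_mul, Subgroup.coe_mul, Subgroup.coe_inv, hX]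
      exact hY
    let J : AddSubgroup ℤ :=
      { carrier := {j | ∃ k ∈ S, g ^ j • x0 = φ k • x0}
        zero_mem' := ⟨1, hS1, by rw [zpow_zero, map_one]⟩
        add_mem' := by
          rintro i j ⟨k, hk, h1⟩ ⟨l, hl, h2⟩
          refine ⟨(⟨m, hmH⟩ : H) ^ i * l * ((⟨m, hmH⟩ : H) ^ i)⁻¹ * k,
            hSmul _ (hSconj i l hl) _ hk, ?_⟩
          rw [zpow_add, mul_smul, h2, map_mul, map_mul, map_mul, map_inv, hmz, mul_smul, ← h1,
            smul_smul, smul_smul, inv_mul_cancel_right]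
        neg_mem' := by
          rintro i ⟨k, hk, h1⟩
          refine ⟨((⟨m, hmH⟩ : H) ^ (-i) * k * ((⟨m, hmH⟩ : H) ^ (-i))⁻¹)⁻¹,
            hSinv _ (hSconj (-i) k hk), ?_⟩
          rw [map_inv, eq_inv_smul_iff, map_mul, map_mul, map_inv, hmz, smul_smul,
            inv_mul_cancel_right, mul_smul, ← h1, smul_smul, ← zpow_add, neg_add_cancel,
            zpow_zero, one_smul] }
    obtain ⟨n1, k1, hk1, hn1⟩ := hdense (g • x0) _ (hSopen x0) (hSne x0) 2 two_pos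
    have hJ1 : 2 * n1 + 1 ∈ J := by
      refine ⟨k1, hk1, ?_⟩
      have h1 : φ k1 • x0 = (g ^ 2) ^ n1 • g • x0 := hn1
      rw [h1, smul_smul, zpow_add, zpow_one, zpow_mul]
      norm_cast
    have hq : 0 < (2 * n1 + 1).natAbs := by omega
    have hJq : ∀ n : ℤ, (((2 * n1 + 1).natAbs : ℕ) : ℤ) * n ∈ J := by
      intro n
      rcases Int.natAbs_eq (2 * n1 + 1) with h | h
      · rw [← h, mul_comm, ← smul_eq_mul]
        exact J.zsmul_mem hJ1 n
      · have h1 : (((2 * n1 + 1).natAbs : ℕ) : ℤ) * n = (-n) • (2 * n1 + 1) := by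
          rw [smul_eq_mul]
          nth_rewrite 2 [h]
          ring
        rw [h1]
        exact J.zsmul_mem hJ1 _
    obtain ⟨n2, k2, hk2, hn2⟩ := hdense x0 _ (hSopen (g • x0)) (hSne (g • x0)) _ hq
    obtain ⟨k3, hk3, hn3⟩ := hJq n2
    have h4 : φ k2 • g • x0 = φ k3 • x0 := by
      rw [← hn3, zpow_mul, zpow_natCast]
      exact hn2
    have hk4 : k3⁻¹ * k2 ∈ S := hSmul _ (hSinv _ hk3) _ hk2
    obtain ⟨X, hX⟩ := hk4
    obtain ⟨X', hX'⟩ := exp_mul_form R X 1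
    refine ⟨e X * m, ?_, R.ρ X', ⟨X', rfl⟩, ?_⟩
    · have h5 : φ (k3⁻¹ * k2 * ⟨m, hmH⟩) • x0 = x0 := by
        rw [map_mul, map_mul, map_inv, hφm', mul_smul, mul_smul, h4, inv_smul_smul]
      have h6 := hΛmem _ h5
      rw [Subgroup.coe_mul, hX] at h6
      exact h6
    · rw [Units.val_mul, he_val, hm, ue_val]
      rw [one_smul, add_comm] at hX'
      exact hX'
  · -- closed
    apply hemb.isClosedMap
    have h1 : {k : H | φ k • x0 ∉ U} = (fun k : H => φ k • x0) ⁻¹' Uᶜ := rfl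
    rw [h1]
    exact hU.isClosed_compl.preimage (hact x0).1
  · rintro _ ⟨b, hb, rfl⟩ _ ⟨k, hk, rfl⟩
    refine ⟨b * k, ?_, rfl⟩
    have h1 : φ k • x0 = x0 := (hstab _).2 hk
    change φ (b * k) • x0 ∉ U
    rw [map_mul, mul_smul, h1]
    exact hb
  · rw [hBadmem _ (H.zpow_mem hmH n0), not_not]
    change φ ((⟨m, hmH⟩ : H) ^ n0) • x0 ∈ U
    rw [hmz]
    exact hn0
  · intro n hn
    rw [hBadmem _ (H.zpow_mem hmH n), not_not] at hn
    change φ ((⟨m, hmH⟩ : H) ^ n) • x0 ∈ U at hn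
    rw [hmz] at hn
    exact hn

end Pool.Agent.Helper75x.NRB
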