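import Pool.Agent.TH91.LG.Asm

/-!
Task B of project S04319: the model of a nilpotent Lie group, keeping the structure
(adapted from `TH515/J1261.lean` and `TH91/LG/Asm.lean`).
-/

set_option autoImplicit false

namespace Pool.Agent.Helper75x.NRB

open Topology Filter Pool.Agent.TH91.LG Pool.Agent.TH91.LG.J1261
open scoped ContDiff Manifold

open J1261 Pool.Agent.TH91.RF Pool.Agent.TH91.NB in
theorem model2_of_facts {G : Type*} [Group G] [TopologicalSpace G] [IsTopologicalGroup G]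
    {E : Type*} [NormedAddCommGroup E] [NormedSpace ℝ E] [FiniteDimensional ℝ E] (L : LieStr G E)
    (g : G)
    (hconj : ∀ (g : G) (X : E) (t : ℝ), g * L.c X t * g⁻¹ = L.c (L.Ad g X) t)
    (hsmul : ∀ (a : ℝ) (X : E) (t : ℝ), L.c (a • X) t = L.c X (a * t))
    (D : Module.End ℝ E) (hDn : IsNilpotent D) (hD : fexp D = L.Ad g)
    {N : ℕ} (R : NilRepD L.ad D N)
    (hcl : ∀ X Y : E, ∃ Z : E, IsNilpotent.exp (R.ρ X) * IsNilpotent.exp (R.ρ Y) =
      IsNilpotent.exp (R.ρ Z))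
    (hhom : ∀ X Y Z : E, IsNilpotent.exp (R.ρ X) * IsNilpotent.exp (R.ρ Y) =
      IsNilpotent.exp (R.ρ Z) → L.c X 1 * L.c Y 1 = L.c Z 1)
    (hcont : Continuous (fun X => L.c X 1)) :
    ∃ (H : Subgroup (Matrix (Fin N) (Fin N) ℝ)ˣ) (φ : H →* G),
      (∀ u, u ∈ H ↔ ∃ (X : E) (k : ℤ), u = ue (R.ρ X) (rho_mem R X) * (ue R.M (M_mem R)) ^ k) ∧
      (∀ h ∈ H, (∀ i, (h : Matrix (Fin N) (Fin N) ℝ) i i = 1) ∧
        ∀ i j, j < i → (h : Matrix (Fin N) (Fin N) ℝ) i j = 0) ∧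
      Continuous φ ∧ IsOpenMap φ ∧
      (∀ hm : ue R.M (M_mem R) ∈ H, φ ⟨ue R.M (M_mem R), hm⟩ = g) ∧
      (∀ (k : ℤ) (X : E), ∃ Y, (ue R.M (M_mem R)) ^ k * ue (R.ρ X) (rho_mem R X) *
        ((ue R.M (M_mem R)) ^ k)⁻¹ = ue (R.ρ Y) (rho_mem R Y)) := by
  classical
  set Φ := J887.matFiltR N with hΦ
  set m : (Matrix (Fin N) (Fin N) ℝ)ˣ := ue R.M (M_mem R) with hm
  set e : E → (Matrix (Fin N) (Fin N) ℝ)ˣ := fun X => ue (R.ρ X) (rho_mem R X) with he
  have he_val : ∀ X, (e X : Matrix (Fin N) (Fin N) ℝ) = IsNilpotent.exp (R.ρ X) := fun X => rfl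
  have he_inv : ∀ X, (e X)⁻¹ = e (-X) := by
    intro X
    apply Units.ext
    rw [he_val, map_neg]
    rfl
  have he0 : e 0 = 1 := by
    apply Units.ext
    rw [he_val, map_zero, IsNilpotent.exp_zero, Units.val_one]
  have he_mul : ∀ X Y, ∃ Z, e X * e Y = e Z ∧ L.c X 1 * L.c Y 1 = L.c Z 1 := by
    intro X Y
    obtain ⟨Z, hZ⟩ := hcl X Y
    refine ⟨Z, Units.ext ?_, hhom X Y Z hZ⟩
    rw [Units.val_mul, he_val, he_val, he_val, hZ]
  have he_inj : ∀ X Y, e X = e Y → X = Y := by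
    intro X Y h
    apply R.inj
    refine Φ.exp_inj (rho_mem R X) (rho_mem R Y) ?_
    rw [← he_val, ← he_val, h]
  -- one-parameter subgroups
  have hc0 : ∀ X, L.c X 0 = 1 := by
    intro X
    have h := L.c_add X 0 0
    rw [add_zero] at h
    exact left_eq_mul.1 h
  have hc1 : L.c 0 1 = 1 := by
    have h := hsmul 0 0 1
    rw [zero_smul, zero_mul, hc0] at h
    exact h
  have hcneg : ∀ X, (L.c X 1)⁻¹ = L.c (-X) 1 := by
    intro X
    have h := hsmul (-1) X 1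
    rw [neg_smul, one_smul, mul_one] at h
    rw [h, inv_eq_iff_mul_eq_one, ← L.c_add]
    simp [hc0]
  have hAd : ∀ Y, L.Ad g (L.Ad g⁻¹ Y) = Y := by
    intro Y
    have h1 : L.c (L.Ad g (L.Ad g⁻¹ Y)) = L.c Y := by
      funext t
      rw [← hconj, ← hconj]
      group
    have h2 := L.c_T (L.Ad g (L.Ad g⁻¹ Y))
    rw [h1] at h2
    exact L.T_unique h2 (L.c_T Y)
  -- the conjugation property
  let P : (Matrix (Fin N) (Fin N) ℝ)ˣ × G → Prop := fun p =>
    ∀ Y, ∃ Y', p.1 * e Y * p.1⁻¹ = e Y' ∧ p.2 * L.c Y 1 * p.2⁻¹ = L.c Y' 1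
  have hP_mul : ∀ p q, P p → P q → P (p * q) := by
    intro p q hp hq Y
    obtain ⟨Y', h1, h2⟩ := hq Y
    obtain ⟨Y'', h3, h4⟩ := hp Y'
    refine ⟨Y'', ?_, ?_⟩
    · rw [← h3, ← h1, Prod.fst_mul]
      group
    · rw [← h4, ← h2, Prod.snd_mul]
      group
  have hP1 : P (m, g) := by
    intro Y
    refine ⟨L.Ad g Y, ?_, hconj g Y 1⟩
    rw [← hD]
    exact conj_exp R hDn Y
  have hP2 : P (m, g)⁻¹ := by
    intro Y
    obtain ⟨Y', h1, h2⟩ := hP1 (L.Ad g⁻¹ Y)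
    have h3 : Y' = Y := by
      have h4 : m * e (L.Ad g⁻¹ Y) * m⁻¹ = e (L.Ad g (L.Ad g⁻¹ Y)) := by
        rw [← hD]
        exact conj_exp R hDn _
      rw [hAd] at h4
      exact he_inj _ _ (h1.symm.trans h4)
    rw [h3] at h1 h2
    refine ⟨L.Ad g⁻¹ Y, ?_, ?_⟩
    · rw [← h1]
      change m⁻¹ * (m * e (L.Ad g⁻¹ Y) * m⁻¹) * m⁻¹⁻¹ = _
      group
    · rw [← h2]
      change g⁻¹ * (g * L.c (L.Ad g⁻¹ Y) 1 * g⁻¹) * g⁻¹⁻¹ = _
      group
  have hP1' : P 1 := by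
    intro Y
    exact ⟨Y, by simp, by simp⟩
  have hPz : ∀ k : ℤ, P ((m, g) ^ k) := by
    let Q : Subgroup ((Matrix (Fin N) (Fin N) ℝ)ˣ × G) :=
      { carrier := {p | P p ∧ P p⁻¹}
        one_mem' := ⟨hP1', by rw [inv_one]; exact hP1'⟩
        mul_mem' := by
          rintro a b ⟨ha, ha'⟩ ⟨hb, hb'⟩
          refine ⟨hP_mul _ _ ha hb, ?_⟩
          rw [mul_inv_rev]
          exact hP_mul _ _ hb' ha'
        inv_mem' := by
          rintro a ⟨ha, ha'⟩
          exact ⟨ha', by rw [inv_inv]; exact ha⟩ }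
    have hQ : (m, g) ∈ Q := ⟨hP1, hP2⟩
    intro k
    exact (Q.zpow_mem hQ k).1
  have hPz' : ∀ (k : ℤ) (Y : E), ∃ Y', m ^ k * e Y * (m ^ k)⁻¹ = e Y' ∧
      g ^ k * L.c Y 1 * (g ^ k)⁻¹ = L.c Y' 1 := fun k Y => hPz k Y
  -- the graph
  let S : Subgroup ((Matrix (Fin N) (Fin N) ℝ)ˣ × G) :=
    { carrier := {p | ∃ (X : E) (k : ℤ), p = (e X * m ^ k, L.c X 1 * g ^ k)}
      one_mem' := ⟨0, 0, by rw [he0, hc1, zpow_zero, zpow_zero, one_mul, one_mul]; rfl⟩
      mul_mem' := by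
        rintro a b ⟨X, k, rfl⟩ ⟨Y, l, rfl⟩
        obtain ⟨Y', h1, h2⟩ := hPz' k Y
        obtain ⟨Z, h3, h4⟩ := he_mul X Y'
        refine ⟨Z, k + l, ?_⟩
        rw [← h3, ← h4, ← h1, ← h2, zpow_add, zpow_add, Prod.mk_mul_mk]
        congr 1 <;> group
      inv_mem' := by
        rintro a ⟨X, k, rfl⟩
        obtain ⟨Y', h1, h2⟩ := hPz' (-k) (-X)
        refine ⟨Y', -k, ?_⟩
        rw [← h1, ← h2, Prod.inv_mk, mul_inv_rev, mul_inv_rev, he_inv, hcneg, zpow_neg, zpow_neg]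
        congr 1 <;> group }
  have hval : ∀ (X : E) (k : ℤ), ((e X * m ^ k : (Matrix (Fin N) (Fin N) ℝ)ˣ) :
      Matrix (Fin N) (Fin N) ℝ) = IsNilpotent.exp (R.ρ X) * IsNilpotent.exp ((k : ℝ) • R.M) := by
    intro X k
    rw [Units.val_mul, he_val, hm, ue_zpow]
  have hform : ∀ (X : E) (k : ℤ), ∃ X', ((e X * m ^ k : (Matrix (Fin N) (Fin N) ℝ)ˣ) :
      Matrix (Fin N) (Fin N) ℝ) = IsNilpotent.exp (R.ρ X' + (k : ℝ) • R.M) := by
    intro X k
    rw [hval]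
    exact exp_mul_form R X k
  have hmemF : ∀ (X : E) (t : ℝ), R.ρ X + t • R.M ∈ Φ.F 1 := fun X t =>
    Submodule.add_mem _ (rho_mem R X) (smul_mem (M_mem R) t)
  have huniq : ∀ (X Y : E) (k l : ℤ), e X * m ^ k = e Y * m ^ l → X = Y ∧ k = l := by
    intro X Y k l h
    obtain ⟨X', hX'⟩ := hform X k
    obtain ⟨Y', hY'⟩ := hform Y l
    rw [h, hY'] at hX'
    have h1 := Φ.exp_inj (hmemF _ _) (hmemF _ _) hX'
    have h2 : R.ρ (Y' - X') = ((k : ℝ) - l) • R.M := by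
      rw [map_sub, sub_smul, sub_eq_sub_iff_add_eq_add, h1, add_comm]
    have h3 := R.indep _ _ h2
    have h4 : k = l := by
      rw [sub_eq_zero] at h3
      exact_mod_cast h3
    subst h4
    exact ⟨he_inj _ _ (mul_right_cancel h), rfl⟩
  obtain ⟨H, φ, hH, hφ⟩ := exists_hom S (by
    rintro p ⟨X, k, rfl⟩ q ⟨Y, l, rfl⟩ h
    obtain ⟨rfl, rfl⟩ := huniq X Y k l h
    rfl)
  have hmemH : ∀ (X : E) (k : ℤ), e X * m ^ k ∈ H := fun X k => (hH _).2 ⟨_, X, k, rfl⟩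
  have hformH : ∀ h : H, ∃ (X : E) (k : ℤ), (h : (Matrix (Fin N) (Fin N) ℝ)ˣ) = e X * m ^ k ∧
      φ h = L.c X 1 * g ^ k := by
    rintro ⟨h, hh⟩
    obtain ⟨b, X, k, hb⟩ := (hH _).1 hh
    rw [Prod.mk.injEq] at hb
    refine ⟨X, k, hb.1, ?_⟩
    exact hφ h hh _ ⟨X, k, by rw [hb.1]⟩
  have hφe : ∀ (X : E) (hX : e X ∈ H), φ ⟨e X, hX⟩ = L.c X 1 := by
    intro X hX
    exact hφ _ _ _ ⟨X, 0, by simp⟩
  have htri : ∀ h ∈ H, (∀ i, (h : Matrix (Fin N) (Fin N) ℝ) i i = 1) ∧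
        ∀ i j, j < i → (h : Matrix (Fin N) (Fin N) ℝ) i j = 0 := by
    intro h hh
    obtain ⟨X, k, h1, -⟩ := hformH ⟨h, hh⟩
    have h2 : h = e X * m ^ k := h1
    apply tri_of_mem
    rw [h2, hval]
    exact Φ.one_add_mul_mem (Φ.exp_sub_one_mem (rho_mem R X))
      (Φ.exp_sub_one_mem (smul_mem (M_mem R) _))
  have hind := TH444.NB.inducing_val H htri
  -- the logarithm
  let lg : H → Matrix (Fin N) (Fin N) ℝ := fun h =>
    J887.Lg N N ((h : (Matrix (Fin N) (Fin N) ℝ)ˣ) : Matrix (Fin N) (Fin N) ℝ)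
  have hlg : Continuous lg := (J887.Lg_continuous N).comp hind.continuous
  have hlg1 : lg 1 = 0 := by
    have h1 : lg 1 = J887.Lg N N (IsNilpotent.exp 0) := by
      rw [IsNilpotent.exp_zero]
      rfl
    rw [h1, J887.Lg_exp (Submodule.zero_mem _)]
  -- a functional
  have hMn : R.M ∉ LinearMap.range R.ρ := by
    rintro ⟨x, hx⟩
    have := R.indep x 1 (by rw [one_smul]; exact hx)
    exact one_ne_zero this
  obtain ⟨χ, hχM, hχ⟩ := Submodule.exists_le_ker_of_notMem hMn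
  have hχ0 : ∀ x, χ (R.ρ x) = 0 := fun x => hχ ⟨x, rfl⟩
  have hχc : Continuous χ := LinearMap.continuous_of_finiteDimensional χ
  obtain ⟨σ, hσ⟩ := R.ρ.exists_leftInverse_of_injective (LinearMap.ker_eq_bot.2 R.inj)
  have hσ' : ∀ x, σ (R.ρ x) = x := fun x => by
    rw [← LinearMap.comp_apply, hσ, LinearMap.id_apply]
  have hσc : Continuous σ := LinearMap.continuous_of_finiteDimensional σ
  have hφcont : Continuous φ := by
    apply continuous_of_continuousAt_one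
    have h1 : ContinuousAt (fun h : H => L.c (σ (lg h)) 1) 1 :=
      (hcont.comp (hσc.comp hlg)).continuousAt
    refine h1.congr ?_
    have h2 : ∀ᶠ h in 𝓝 (1 : H), |χ (lg h)| < |χ R.M| := by
      have h3 : Continuous fun h : H => |χ (lg h)| := (hχc.comp hlg).abs
      have h4 : |χ (lg 1)| < |χ R.M| := by
        rw [hlg1, map_zero, abs_zero]
        exact abs_pos.2 hχM
      exact h3.continuousAt.eventually_lt continuousAt_const h4
    filter_upwards [h2] with h hh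
    obtain ⟨X, k, hX, hφX⟩ := hformH h
    obtain ⟨X', hX'⟩ := hform X k
    have h5 : lg h = R.ρ X' + (k : ℝ) • R.M := by
      change J887.Lg N N _ = _
      rw [hX, hX', J887.Lg_exp (hmemF _ _)]
    rw [h5, map_add, hχ0, zero_add, map_smul, smul_eq_mul, abs_mul] at hh
    have h6 : |(k : ℝ)| < 1 := by
      by_contra hcon
      push Not at hcon
      have := mul_le_mul_of_nonneg_right hcon (abs_nonneg (χ R.M))
      linarith
    have h7 : k = 0 := by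
      have : |k| < 1 := by exact_mod_cast h6
      exact Int.abs_lt_one_iff.1 this
    subst h7
    rw [zpow_zero, mul_one] at hφX hX
    have h8 : lg h = R.ρ X := by
      change J887.Lg N N _ = _
      rw [hX, he_val, J887.Lg_exp (rho_mem R X)]
    rw [h8, hσ', hφX]
  -- the curves
  have heH : ∀ X, e X ∈ H := fun X => by simpa using hmemH X 0
  let eH : E → H := fun X => ⟨e X, heH X⟩
  have hρc : Continuous R.ρ := LinearMap.continuous_of_finiteDimensional R.ρ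
  have heHc : Continuous eH := by
    rw [hind.continuous_iff]
    have h1 : ((fun k : H => ((k : (Matrix (Fin N) (Fin N) ℝ)ˣ) : Matrix (Fin N) (Fin N) ℝ)) ∘ eH)
        = fun X => J887.Ex N (R.ρ X) := by
      funext X
      change IsNilpotent.exp (R.ρ X) = _
      rw [Φ.exp_eq (rho_mem R X)]
      rfl
    rw [h1]
    exact J887.Ex_continuous.comp hρc
  have hφeH : ∀ X, φ (eH X) = L.c X 1 := fun X => hφe X _
  have heH0 : eH 0 = 1 := Subtype.ext he0
  have hφopen : IsOpenMap φ := by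
    rw [IsTopologicalGroup.isOpenMap_iff_nhds_one]
    intro s hs
    rw [mem_map] at hs
    let b := Module.finBasis ℝ E
    let F : (Fin (Module.finrank ℝ E) → ℝ) → H := fun t => (List.ofFn fun i => eH (t i • b i)).prod
    have hF : Continuous F := by
      have h1 : F = fun t => ((List.finRange (Module.finrank ℝ E)).map
          (fun i => eH (t i • b i))).prod := by
        funext t
        change (List.ofFn fun i => eH (t i • b i)).prod = _
        rw [List.ofFn_eq_map]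
      rw [h1]
      exact continuous_list_prod _ fun i _ =>
        heHc.comp ((continuous_apply i).smul continuous_const)
    have hF0 : F 0 = 1 := by
      change (List.ofFn fun i => eH ((0 : Fin (Module.finrank ℝ E) → ℝ) i • b i)).prod = 1
      apply List.prod_eq_one
      intro x hx
      rw [List.mem_ofFn] at hx
      obtain ⟨i, rfl⟩ := hx
      rw [Pi.zero_apply, zero_smul, heH0]
    have h2 : F ⁻¹' (φ ⁻¹' s) ∈ 𝓝 (0 : Fin (Module.finrank ℝ E) → ℝ) := by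
      apply hF.continuousAt
      rw [hF0]
      exact hs
    obtain ⟨δ, hδ, hball⟩ := Metric.mem_nhds_iff.1 h2
    refine mem_of_superset (L.open_prod (fun i => b i) b.span_eq δ hδ) ?_
    rintro _ ⟨t, ht, rfl⟩
    have h3 : t ∈ Metric.ball (0 : Fin (Module.finrank ℝ E) → ℝ) δ := by
      rw [Metric.mem_ball, dist_pi_lt_iff hδ]
      intro i
      rw [Pi.zero_apply, Real.dist_eq, sub_zero]
      exact ht i
    have h4 : φ (F t) ∈ s := hball h3
    have h5 : φ (F t) = (List.ofFn fun i => L.c (b i) (t i)).prod := by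
      change φ (List.ofFn fun i => eH (t i • b i)).prod = _
      rw [map_list_prod, List.map_ofFn]
      congr 1
      congr 1
      funext i
      rw [Function.comp_apply, hφeH, hsmul, mul_one]
    rw [← h5]
    exact h4
  refine ⟨H, φ, ?_, htri, hφcont, hφopen, ?_, ?_⟩
  · intro u
    rw [hH]
    constructor
    · rintro ⟨b, X, k, hb⟩
      exact ⟨X, k, (Prod.mk.injEq _ _ _ _ ▸ hb).1⟩
    · rintro ⟨X, k, rfl⟩
      exact ⟨_, X, k, rfl⟩
  · intro hm'
    rw [hφ _ _ (L.c 0 1 * g ^ (1 : ℤ)) ⟨0, 1, by rw [he0, one_mul, zpow_one m]⟩, hc1, one_mul,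
      zpow_one]
  · intro k X
    obtain ⟨Y, h1, -⟩ := hPz' k X
    exact ⟨Y, h1⟩

open Pool.Agent.TH91.RF Pool.Agent.TH91.NB in
/-- every nilpotent Lie group with an element: the matrix model -/
theorem lie_model2 {E : Type*} [NormedAddCommGroup E] [NormedSpace ℝ E] [FiniteDimensional ℝ E]
    {G : Type*} [TopologicalSpace G] [ChartedSpace E G] [Group G] [LieGroup 𝓘(ℝ, E) ∞ G]
    [Group.IsNilpotent G] (g : G) :
    ∃ (B : E →ₗ[ℝ] E →ₗ[ℝ] E) (D : Module.End ℝ E) (N : ℕ) (R : NilRepD B D N)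
      (H : Subgroup (Matrix (Fin N) (Fin N) ℝ)ˣ) (φ : H →* G),
      (∀ X Y : E, ∃ Z : E, IsNilpotent.exp (R.ρ X) * IsNilpotent.exp (R.ρ Y) =
        IsNilpotent.exp (R.ρ Z)) ∧
      (∀ u, u ∈ H ↔ ∃ (X : E) (k : ℤ), u = ue (R.ρ X) (rho_mem R X) * (ue R.M (M_mem R)) ^ k) ∧
      (∀ h ∈ H, (∀ i, (h : Matrix (Fin N) (Fin N) ℝ) i i = 1) ∧
        ∀ i j, j < i → (h : Matrix (Fin N) (Fin N) ℝ) i j = 0) ∧
      Continuous φ ∧ IsOpenMap φ ∧
      (∀ hm : ue R.M (M_mem R) ∈ H, φ ⟨ue R.M (M_mem R), hm⟩ = g) ∧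
      (∀ (k : ℤ) (X : E), ∃ Y, (ue R.M (M_mem R)) ^ k * ue (R.ρ X) (rho_mem R X) *
        ((ue R.M (M_mem R)) ^ k)⁻¹ = ue (R.ρ Y) (rho_mem R Y)) := by
  have htop : IsTopologicalGroup G := topologicalGroup_of_lieGroup 𝓘(ℝ, E) ∞
  obtain ⟨L0⟩ := Pool.Agent.TH959.J1254.exists_locLie E G
  obtain ⟨L⟩ := L0.exists_lieStr
  have hB : NilLie L.ad := L.nilLie
  obtain ⟨N0, ⟨R0⟩⟩ := exists_nilRep_univ E L.ad hB
  obtain ⟨D, hD1, hD2, hD3⟩ := Pool.Agent.TH558.J1262.log_aut L.ad (L.Ad g) (L.Ad_nil g)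
    (fun x y => L.Ad_ad g x y)
  obtain ⟨N, ⟨R⟩⟩ := R0.extend hB D hD1 hD2
  have hf := hom_facts L (fun g X t => L.conj_c g X t) (fun a X t => L.c_smul a X t)
    (fun X t => L.Ad_c X t) hB R.toNilRep
  obtain ⟨H, φ, h1, h2, h3, h4, h5, h6⟩ := model2_of_facts L g (fun g X t => L.conj_c g X t)
    (fun a X t => L.c_smul a X t) D hD1 hD3 R hf.1 hf.2.1 hf.2.2
  exact ⟨L.ad, D, N, R, H, φ, hf.1, h1, h2, h3, h4, h5, h6⟩

end Pool.Agent.Helper75x.NRB
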